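import Mathlib
import Pool.Agent.H69R3.Defs
import Pool.Agent.Y237.TD.Final

set_option autoImplicit false

universe u

namespace Pool.Agent.Results.MP_9c9ca5_gt.TDyadicCompacta

open Pool.Agent.H69R3
open Pool.Agent.Y237.TD

/-- Let `X` be a Tychonoff space which is t-extral, or compact and t-dyadic (t-embedded in a dyadic
compact space). Then `X` is compact and t-dyadic, and the following are equivalent: `X` is
metrizable; `X` is sequential; `X` has countable tightness; the closed separable subspaces of `X`
have countable tightness; `X` contains no copy of the Cantor cube `{0,1}^ω₁`. In particular `X` is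
metrizable if it has fewer than `2^ω₁` points. -/
theorem result (X : Type u) [TopologicalSpace X] [T35Space X]
    (hX : TExtral X ∨ (CompactSpace X ∧ TDyadic X)) :
    CompactSpace X ∧ TDyadic X ∧
      List.TFAE [TopologicalSpace.MetrizableSpace X, SequentialSpace X, CountablyTight X,
        ∀ B : Set X, IsClosed B → TopologicalSpace.SeparableSpace B → CountablyTight B,
        ¬ HasCube X] ∧
      (Cardinal.mk X < 2 ^ Cardinal.aleph 1 → TopologicalSpace.MetrizableSpace X) := by
  have h : CompactSpace X ∧ TDyadic X := hX.elim tdyadic_of_extral id
  have : CompactSpace X := h.1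
  exact ⟨h.1, h.2, tfae h.2, small h.2⟩

end Pool.Agent.Results.MP_9c9ca5_gt.TDyadicCompacta
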